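import Pool.Agent.Helper76.TK2.StA

/-!
# Project TK2, module DIM2: the twisted values of every symbol are in the span of an independent family
-/

set_option autoImplicit false

namespace Pool.Agent.Helper36.TK2

open Pool.Agent.Helper76.TK2 Pool.Agent.Helper14.TT Pool.Agent.Helper14.CV
open Pool.Agent.Helper76.TX (RootNum eX evX evX_congr NewSymS NSS)

/-- The image of the twisted values on the symbols of level `2^n`. -/
private noncomputable def V (l n : ℕ) : Submodule ℂ (ℕ → ℕ → ℂ) := (XS n).map (evX l)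

/-- The image of the twisted values on the new symbols of level `2^n`. -/
private noncomputable def W (l n : ℕ) : Submodule ℂ (ℕ → ℕ → ℂ) := (NSS n (wT l n) (-1)).map (evX l)

private theorem okd_mod {l : ℕ} (hl : Okd l) : l % 4 = 3 := by
  rcases hl with h | h | ⟨p, _, h1, rfl⟩
  · omega
  · omega
  · omega

/-- The sign is allowed in UBT. -/
private theorem okd_sign {l : ℕ} (hl : Okd l) (n : ℕ) :
    wT l n = -1 ∨ (wT l n = 1 ∧ n % 2 = 1) := by
  have h4 := okd_mod hl
  have hg : Int.gcd 2 (l : ℤ) = 1 := by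
    have : Nat.Coprime 2 l := by
      rw [Nat.coprime_two_left]
      exact Nat.odd_iff.2 (by omega)
    simpa [Int.gcd] using this
  rcases jacobiSym.eq_one_or_neg_one hg with h | h
  · left
    unfold wT
    rw [h, one_pow]
  · unfold wT
    rw [h]
    rcases Nat.even_or_odd n with he | ho
    · left
      rw [he.neg_one_pow]
    · right
      refine ⟨?_, Nat.odd_iff.1 ho⟩
      rw [ho.neg_one_pow, neg_neg]

private theorem V_le (h : DectD) {l : ℕ} (hl : Okd l) {n : ℕ} (hn : 3 ≤ n) :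
    V l n ≤ V l (n - 1) ⊔ W l n := by
  rintro x ⟨G, hG, rfl⟩
  obtain ⟨G0, G1, h0, h1, h2⟩ := h l n G (okd_mod hl) hn hG
  exact Submodule.mem_sup.mpr ⟨evX l G0, ⟨G0, h0, rfl⟩, evX l G1, ⟨G1, h1, rfl⟩, h2.symm⟩

private theorem W_bound (h : UBT) {l : ℕ} (hl : Okd l) {n : ℕ} (hn : 3 ≤ n) :
    Module.Finite ℂ (W l n) ∧ Module.finrank ℂ (W l n) ≤ dT (wT l n) n := by
  have hl0 : l ≠ 0 := by
    have := okd_mod hl
    omega
  obtain ⟨Θ, hΘ⟩ := h (wT l n) n hn (okd_sign hl n)
  set f : NSS n (wT l n) (-1) →ₗ[ℂ] (ℕ → ℕ → ℂ) := evX l ∘ₗ (NSS n (wT l n) (-1)).subtype with hf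
  have hker : LinearMap.ker Θ ≤ LinearMap.ker f := by
    intro G hG
    have h1 : EqC (G : ℤ → ℤ → ℂ) 0 := hΘ G (LinearMap.mem_ker.mp hG)
    refine LinearMap.mem_ker.mpr ?_
    show evX l (G : ℤ → ℤ → ℂ) = 0
    rw [evX_congr hl0 h1]
    exact map_zero (evX l)
  set g : LinearMap.range Θ →ₗ[ℂ] (ℕ → ℕ → ℂ) :=
    (Submodule.liftQ (LinearMap.ker Θ) f hker) ∘ₗ (Θ.quotKerEquivRange.symm).toLinearMap with hg
  have hgΘ : ∀ G : NSS n (wT l n) (-1), g ⟨Θ G, LinearMap.mem_range_self Θ G⟩ = f G := by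
    intro G
    have h1 : Θ.quotKerEquivRange.symm ⟨Θ G, LinearMap.mem_range_self Θ G⟩ =
        (LinearMap.ker Θ).mkQ G := by
      rw [LinearEquiv.symm_apply_eq]
      rfl
    show (Submodule.liftQ (LinearMap.ker Θ) f hker)
      (Θ.quotKerEquivRange.symm ⟨Θ G, LinearMap.mem_range_self Θ G⟩) = f G
    rw [h1]
    rfl
  have hrange : W l n = LinearMap.range g := by
    ext x
    constructor
    · rintro ⟨G, hG, rfl⟩
      exact ⟨⟨Θ ⟨G, hG⟩, LinearMap.mem_range_self Θ _⟩, hgΘ ⟨G, hG⟩⟩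
    · rintro ⟨⟨y, G, rfl⟩, rfl⟩
      exact ⟨(G : ℤ → ℤ → ℂ), G.2, (hgΘ G).symm⟩
  have hfin : Module.Finite ℂ (W l n) := by
    rw [hrange]
    infer_instance
  have hrk := LinearMap.finrank_range_add_finrank_ker g
  have hle : Module.finrank ℂ (LinearMap.range Θ) ≤ dT (wT l n) n := by
    have := Submodule.finrank_le (LinearMap.range Θ)
    simpa using this
  refine ⟨hfin, ?_⟩
  rw [hrange]
  omega

private theorem DT_succ (l m : ℕ) : DT l (m + 1) = DT l m + dT (wT l (m + 1)) (m + 1) := by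
  unfold DT
  rw [Finset.sum_range_succ]

private theorem V_bound (hD : DectD) (hB : BastD) (hU : UBT) {l : ℕ} (hl : Okd l) (n : ℕ)
    (hn : 2 ≤ n) : Module.Finite ℂ (V l n) ∧ Module.finrank ℂ (V l n) ≤ DT l n := by
  induction n, hn using Nat.le_induction with
  | base =>
    have hbot : V l 2 = ⊥ := by
      rw [eq_bot_iff]
      rintro x ⟨G, hG, rfl⟩
      exact (Submodule.mem_bot ℂ).2 (hB l G (okd_mod hl) hG)
    rw [hbot]
    exact ⟨inferInstance, by simp⟩
  | succ m hm ih =>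
    obtain ⟨ih1, ih2⟩ := ih
    have hm3 : 3 ≤ m + 1 := by omega
    obtain ⟨w1, w2⟩ := W_bound hU hl hm3
    have hle := V_le hD hl hm3
    rw [Nat.add_sub_cancel] at hle
    have hfin : Module.Finite ℂ (V l m ⊔ W l (m + 1) : Submodule ℂ (ℕ → ℕ → ℂ)) :=
      Submodule.finiteDimensional_sup _ _
    refine ⟨Submodule.finiteDimensional_of_le hle, ?_⟩
    have h1 := Submodule.finrank_mono hle
    have h2 := Submodule.finrank_add_le_finrank_add_finrank (V l m) (W l (m + 1))
    have h3 := DT_succ l m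
    omega

/-- DIM2. -/
theorem hDim2 : StDIM2 := by
  intro hD hB hU D m G hOk hm hG hli H hH
  obtain ⟨hfin, hle⟩ := V_bound hD hB hU hOk m (by omega)
  have hsub : Submodule.span ℂ (Set.range fun k => evX D (G k)) ≤ V D m := by
    rw [Submodule.span_le]
    rintro _ ⟨k, rfl⟩
    exact ⟨G k, hG k, rfl⟩
  have hrk : Module.finrank ℂ (Submodule.span ℂ (Set.range fun k => evX D (G k))) = DT D m := by
    rw [finrank_span_eq_card hli, Fintype.card_fin]
  have heq := Submodule.eq_of_le_of_finrank_le hsub (by rw [hrk]; exact hle)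
  rw [heq]
  exact ⟨H, hH, rfl⟩

end Pool.Agent.Helper36.TK2
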